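import Pool.Agent.Lib.MP_c5e17c_al.MS.Comp2

/-!
# MP_c5e17c_al: lattices of quasivarieties obtained by cuts and linked products

`C5E17.IsLQ α`: the ordered set `α` is isomorphic to the lattice of all subquasivarieties of some
quasivariety of structures of some signature (classes of nonempty structures defined by
quasi-identities, ordered by inclusion).
`C5E17.Cut A B w`: the pairs `(x, y)` in `A × B` such that `x` is the least element, or `y` is the
least element, or `w ≤ x`.
`C5E17.LProd M z`: the families `x` in the product of the `M p` (`p` in the ordered set `P`) such
that `x p` is the least element or `z p q ≤ x q` whenever `p < q`.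
`C5E17.GC`: iterated cuts of finite lattices with exactly one atom.
`C5E17.GG`: the least class, closed under isomorphism and under linked products over finite ordered
sets `P`, which contains the iterated cuts.
`C5E17.Presents m α`: the Boolean matrix `m` is the table of the order of `α`.
-/

set_option autoImplicit false

namespace Pool.Agent.Results.MP_c5e17c_al.LinkedProducts

open C5E17

/-- A lattice of the class `GG` is a lattice of quasivarieties if and only if it is
join-semidistributive; one computable test decides, for all presentations of lattices of the
class `GG`, whether the presented lattice is a lattice of quasivarieties; and (since the members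
of `GG` with exactly one atom can be recognised) the set of all presentations of finite lattices
of quasivarieties with exactly one atom is computable. -/
theorem result :
    (∀ (α : Type) [i : Lattice α], GG α i.toPartialOrder →
      (IsLQ α ↔ ∀ x y z : α, x ⊔ y = x ⊔ z → x ⊔ (y ⊓ z) = x ⊔ y)) ∧
    (∃ D : List (List Bool) → Prop, ComputablePred D ∧
      ∀ (m : List (List Bool)) (α : Type) [i : Lattice α], Presents m α →
        GG α i.toPartialOrder → (D m ↔ IsLQ α)) ∧
    ComputablePred fun m : List (List Bool) =>
      ∃ (α : Type) (_ : Lattice α) (_ : BoundedOrder α),
        Presents m α ∧ (∃! a : α, IsAtom a) ∧ IsLQ α :=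
  ⟨fun _ _ h => gg_iff h, exists_test, computable_one_atom⟩

end Pool.Agent.Results.MP_c5e17c_al.LinkedProducts
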