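import Pool.Agent.Lib.MP_c5e17c_al.MS.MCon

/-!
# MP_c5e17c_al: congruence lattices of many-sorted semilattices with operators

`C5E17.MSL`: a many-sorted bounded join semilattice with operators: finitely many sorts `i`, a join
semilattice `S i` with least element `⊥` and greatest element `⊤` for every sort `i`, and a set `F`
of operators `f`, acting as maps from `S (dom f)` to `S (cod f)` which preserve joins, `⊥` and `⊤`.
(With one sort: a join semilattice with `⊥` and `⊤` and any set of endomorphisms.)
`C5E17.MSL.Con D`: the congruences of `D`, ordered by inclusion: the families of equivalence
relations, one on every `S i`, which are compatible with joins and carried by all operators.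
`C5E17.IsLQ α`: the ordered set `α` is isomorphic to the lattice of all subquasivarieties of some
quasivariety of structures of some signature (classes of nonempty structures defined by
quasi-identities, ordered by inclusion).
-/

set_option autoImplicit false

namespace Pool.Agent.Results.MP_c5e17c_al.ManySorted

open C5E17

/-- The dual of the congruence lattice of every many-sorted bounded join semilattice with operators
preserving joins, `⊥` and `⊤` is a lattice of quasivarieties. -/
theorem result (D : MSL) : IsLQ D.Conᵒᵈ := D.isLQ_con

end Pool.Agent.Results.MP_c5e17c_al.ManySorted
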