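import Pool.Agent.Lib.MP_c5e17c_al.NE.Nine

/-!
# MP_c5e17c_al: a new necessary condition, and a lattice with nine elements that violates it

`C5E17.IsLQ α`: the ordered set `α` is isomorphic to the lattice of all subquasivarieties of some
quasivariety of structures of some signature (classes of nonempty structures defined by
quasi-identities, ordered by inclusion).
`C5E17.IsEqua g`: `g` is an equaclosure operator.
`C5E17.Nec g`: the new condition.
-/

set_option autoImplicit false

namespace Pool.Agent.Results.MP_c5e17c_al.NineElement

open C5E17

/-- Every lattice of quasivarieties carries an equaclosure operator with the property `Nec`.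
There is a join-semidistributive lattice with nine elements which carries equaclosure operators,
but none with the property `Nec`; so it is not a lattice of quasivarieties. -/
theorem result :
    (∀ (α : Type) [Lattice α] [BoundedOrder α], IsLQ α → ∃ g : α → α, IsEqua g ∧ Nec g) ∧
    ∃ (α : Type) (_ : Lattice α) (_ : BoundedOrder α), Nat.card α = 9 ∧
      (∀ x y z : α, x ⊔ y = x ⊔ z → x ⊔ (y ⊓ z) = x ⊔ y) ∧
      (∃ g : α → α, IsEqua g) ∧ (∀ g : α → α, IsEqua g → ¬ Nec g) ∧ ¬ IsLQ α :=
  ⟨fun _ _ _ h => exists_nec h,
    Nine, inferInstance, inferInstance, Nine.card_nine, Nine.sd, ⟨_, Nine.isEqua_g0⟩,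
      Nine.not_nec, Nine.not_isLQ⟩

end Pool.Agent.Results.MP_c5e17c_al.NineElement
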