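import Pool.Agent.Lib.MP_c5e17c_al.NE.NineB

/-!
# MP_c5e17c_al: a stronger necessary condition, and a second lattice with nine elements

`C5E17.IsLQ α`: the ordered set `α` is isomorphic to the lattice of all subquasivarieties of some
quasivariety of structures of some signature (classes of nonempty structures defined by
quasi-identities, ordered by inclusion).
`C5E17.IsEqua g`: `g` is an equaclosure operator.
`C5E17.NecP g`: the property (N+), a stronger form of the property `C5E17.Nec` of the hand-in
NineElement.
`C5E17.Lam g`: the new property (L).
-/

set_option autoImplicit false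

namespace Pool.Agent.Results.MP_c5e17c_al.SecondCondition

open C5E17

/-- Every lattice of quasivarieties carries an equaclosure operator with the properties `NecP`
and `Lam`. There is a join-semidistributive lattice with nine elements which carries an
equaclosure operator with the properties `Nec` and `NecP`, but none with the property `Lam`; so
it is not a lattice of quasivarieties. -/
theorem result :
    (∀ (α : Type) [Lattice α] [BoundedOrder α], IsLQ α →
      ∃ g : α → α, IsEqua g ∧ NecP g ∧ Lam g) ∧
    ∃ (α : Type) (_ : Lattice α) (_ : BoundedOrder α), Nat.card α = 9 ∧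
      (∀ x y z : α, x ⊔ y = x ⊔ z → x ⊔ (y ⊓ z) = x ⊔ y) ∧
      (∃ g : α → α, IsEqua g ∧ Nec g ∧ NecP g) ∧
      (∀ g : α → α, IsEqua g → ¬ Lam g) ∧ ¬ IsLQ α :=
  ⟨fun _ _ _ h => exists_nec_lam h,
    NineB, inferInstance, inferInstance, NineB.card_nine, NineB.sd,
      ⟨_, NineB.isEqua_g0, nec_of_necP NineB.isEqua_g0 NineB.necP_g0, NineB.necP_g0⟩,
      NineB.not_lam, NineB.not_isLQ⟩

end Pool.Agent.Results.MP_c5e17c_al.SecondCondition
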